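import Mathlib
import Pool.Agent.H563R3.LampFinal

set_option autoImplicit false
open MeasureTheory ProbabilityTheory Filter Topology
open scoped ENNReal
open Pool.Agent.H563R3.Park

namespace Pool.Agent.Results.MP_971c94_pr.LampLog

/-- Question 2 has a negative answer: for a transitive, unimodular, infinitely accessible triple
the expected number of visits grows only logarithmically as `p` increases to `1/2`. -/
theorem result : ∃ (V : Type) (_ : Countable V) (_ : MeasurableSpace V)
    (_ : DiscreteMeasurableSpace V) (T : Triple V), T.Valid ∧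
    (∀ (p : ℝ) (v : V), 0 ≤ p → p < 1 / 2 →
      ENNReal.ofReal (Real.log ((1 - p) / (1 - 2 * p)) / Real.log 4) ≤ meanVisits T p v ∧
      meanVisits T p v ≤ ENNReal.ofReal (2 * p + Real.log ((1 - p) / (1 - 2 * p)))) ∧
    (∀ (γ : ℝ) (v : V), 0 < γ →
      Tendsto (fun p : ℝ => meanVisits T p v * ENNReal.ofReal ((1 / 2 - p) ^ γ))
        (𝓝[<] (1 / 2)) (𝓝 0)) ∧
    (∀ (γ C : ℝ) (v : V), 0 < γ → 0 < C →
      ¬ Tendsto (fun p : ℝ => meanVisits T p v * ENNReal.ofReal ((1 / 2 - p) ^ γ))
        (𝓝[<] (1 / 2)) (𝓝 (ENNReal.ofReal C))) := by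
  refine ⟨Lamp, inferInstance, inferInstance, inferInstance, lampTriple, lamp_valid,
    fun p v h0 h1 => ⟨mean_lower p h0 h1 v, mean_upper p h0 h1 v⟩,
    fun γ v hγ => mean_tendsto γ hγ v, ?_⟩
  intro γ C v hγ hC h
  have h2 := tendsto_nhds_unique h (mean_tendsto γ hγ v)
  rw [ENNReal.ofReal_eq_zero] at h2
  linarith

end Pool.Agent.Results.MP_971c94_pr.LampLog
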